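import Pool.Agent.R121.ShufflePoset

set_option autoImplicit false

/-!
# The major index on the 123-avoiding linear extensions of `NE_{2,t}`

A linear extension of a product of a 2-chain and a `t`-chain is a shuffle of the two `t`-chains and
corresponds to a Catalan word `w`. Both chains are decreasing, so that `123` is avoided, and
`maj π + maj w = 1 + ⋯ + (2t - 1)`. The identity is the palindromicity of `c_t(q)`, which is proved
with Gaussian binomials.
-/

namespace Pool.Agent.Results.MP_28c202_co.MajNE2t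

open Finset Polynomial Pool.Agent.R121.Sh

/-- The order of `NE_{2,t}` on `{0, …, 2t-1}` (the label of the problem is `x + 1`): if
`x = (i-1)t + (k-1)` and `y = (i'-1)t + (k'-1)` then `x ⪯ y` iff `i ≥ i'` and `k ≥ k'`. -/
def NEle (t x y : ℕ) : Prop := y / t ≤ x / t ∧ y % t ≤ x % t

/-- the chains -/
def γ (t : ℕ) (b : Bool) (c : ℕ) : ℕ := if b = true then t - 1 - c else 2 * t - 1 - c

lemma dm1 (t c : ℕ) (hc : c < t) : (t - 1 - c) / t = 0 ∧ (t - 1 - c) % t = t - 1 - c :=
  ⟨Nat.div_eq_of_lt (by omega), Nat.mod_eq_of_lt (by omega)⟩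

lemma dm2 (t c : ℕ) (hc : c < t) : (2 * t - 1 - c) / t = 1 ∧ (2 * t - 1 - c) % t = t - 1 - c := by
  have h : 2 * t - 1 - c = (t - 1 - c) + t := by omega
  rw [h, Nat.add_div_right _ (by omega), Nat.add_mod_right]
  exact ⟨by rw [(dm1 t c hc).1], (dm1 t c hc).2⟩

lemma chains (t : ℕ) (ht : 1 ≤ t) : Chains t (γ t) (NEle t) where
  lt := by
    intro b c hc
    unfold γ
    split_ifs <;> omega
  surj := by
    intro x hx
    by_cases h : x < t
    · exact ⟨true, t - 1 - x, by omega, by simp [γ]; omega⟩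
    · exact ⟨false, 2 * t - 1 - x, by omega, by simp [γ]; omega⟩
  inj := by
    intro b c b' c' hc hc' h
    unfold γ at h
    cases b <;> cases b' <;> simp at h ⊢ <;> omega
  rel := by
    intro b c b' c' hc hc'
    obtain ⟨h1, h2⟩ := dm1 t c hc
    obtain ⟨h3, h4⟩ := dm2 t c hc
    obtain ⟨h5, h6⟩ := dm1 t c' hc'
    obtain ⟨h7, h8⟩ := dm2 t c' hc'
    unfold γ NEle
    cases b <;> cases b' <;> simp [h1, h2, h3, h4, h5, h6, h7, h8] <;> omega

lemma maj_add (t : ℕ) (ht : 1 ≤ t) (π : Equiv.Perm (Fin (2 * t))) (hπ : LE (NEle t) π) :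
    maj (fun i => (π i : ℕ)) + maj (fun i => (word t (γ t) π i).toNat) = t * (2 * t - 1) := by
  rw [← sum_idx (2 * t) t rfl]
  unfold maj
  rw [← sum_add_distrib]
  apply sum_congr rfl
  intro j _
  by_cases hj : 0 < j.1
  · obtain ⟨a, b, h1, h2, h3, h4⟩ := local_cases (chains t ht) rfl hπ j hj
    rcases h4 with ⟨h5, h6, h7, h8, h9⟩ | ⟨h5, h6, h7, h8, h9⟩ | ⟨h5, h6, h7, h8, h9⟩ |
      ⟨h5, h6, h7, h8, h9⟩
    · simp only [h5, h6, h7, h8, γ]
      simp
      omega
    · simp only [h5, h6, h7, h8, γ]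
      simp
      omega
    · simp only [h5, h6, h7, h8, γ]
      simp
      omega
    · simp only [h5, h6, h7, h8, γ]
      simp
      omega
  · have : j.1 = 0 := by omega
    simp [this]

open Classical in
/-- For every `t ≥ 1` the generating polynomial of the major index over the `123`-avoiding linear
extensions of `NE_{2,t}` is `q^(t²) c_t(q)`, where `c_t(q)` is the generating polynomial of the major
index over the Catalan words of length `2t`. -/
theorem result (t : ℕ) (ht : 1 ≤ t) :
    ∑ π ∈ univ.filter (fun π : Equiv.Perm (Fin (2 * t)) => LE (NEle t) π ∧ Avoids123 π),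
      (X : ℤ[X]) ^ maj (fun i => (π i : ℕ)) =
    X ^ (t ^ 2) * ∑ w ∈ univ.filter (fun w : Fin (2 * t) → Bool => Cat w),
      X ^ maj (fun i => (w i).toNat) := by
  apply final (n := t) rfl
  intro K _ q hq f hf
  rw [map_sum]
  simp only [map_pow, hf]
  rw [sum_linExt (chains t ht) rfl (fun π => Avoids123 π) (fun _ => True)
    (fun π => q ^ maj (fun i => (π i : ℕ)))
    (fun w => q ^ (t ^ 2 + t * (t - 1)) * q⁻¹ ^ maj (fun i => (w i).toNat))]
  · rw [← mul_sum]
    simp only [and_true]
    rw [sum_maj q⁻¹ rfl]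
  · intro π hπ
    simp only [iff_true]
    apply avoids123 (chains t ht) rfl hπ
    intro b c c' h1 h2
    unfold γ
    split_ifs <;> omega
  · intro π hπ _
    have h1 := maj_add t ht π hπ
    have h2 : t ^ 2 + t * (t - 1) = t * (2 * t - 1) := by
      obtain ⟨s, rfl⟩ : ∃ s, t = s + 1 := ⟨t - 1, by omega⟩
      have : 2 * (s + 1) - 1 = 2 * s + 1 := by omega
      rw [this, Nat.add_sub_cancel]
      ring
    rw [h2, ← h1, pow_add, mul_assoc, ← mul_pow, mul_inv_cancel₀ hq, one_pow, mul_one]

end Pool.Agent.Results.MP_28c202_co.MajNE2t
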